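import Mathlib
import Pool.Agent.Helper82.IW.Goals

/-!
# Project IW of helper82, packet MO4: rate of approximation in `L¹`
-/

open Complex MeasureTheory Set Filter Topology
open scoped ContDiff ComplexConjugate

namespace Pool.Agent.Helper7.IW

open Pool.Agent.Helper82.IW

lemma isCompact_Q : IsCompact Q := IsCompact.reProdIm isCompact_Icc isCompact_Icc

lemma integral_Q_mul (f g : ℝ → ℝ) : ∫ w in Q, f w.re * g w.im =
    (∫ t in (0:ℝ)..1, f t) * ∫ t in (0:ℝ)..1, g t := by
  have h := Complex.volume_preserving_equiv_real_prod.setIntegral_preimage_emb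
    (Complex.measurableEquivRealProd.measurableEmbedding) (fun p : ℝ × ℝ => f p.1 * g p.2)
    (Icc (0:ℝ) 1 ×ˢ Icc (0:ℝ) 1)
  have hQ : Complex.measurableEquivRealProd ⁻¹' (Icc (0:ℝ) 1 ×ˢ Icc (0:ℝ) 1) = Q := by
    ext z
    simp only [Q, Complex.mem_reProdIm, mem_preimage, mem_prod, mem_Icc,
      Complex.measurableEquivRealProd_apply]
  rw [hQ] at h
  have h2 : (∫ w in Q, f w.re * g w.im) = ∫ p in Icc (0:ℝ) 1 ×ˢ Icc (0:ℝ) 1, f p.1 * g p.2 := by
    rw [← h]
    rfl
  rw [h2, Measure.volume_eq_prod, setIntegral_prod_mul]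
  rw [intervalIntegral.integral_of_le zero_le_one, intervalIntegral.integral_of_le zero_le_one,
    integral_Icc_eq_integral_Ioc, integral_Icc_eq_integral_Ioc]

/-- The centre of the square. -/
noncomputable def c0 : ℂ := ⟨1 / 2, 1 / 2⟩

lemma k1_cont (n : ℕ) : Continuous (k1 n) := by
  unfold k1
  fun_prop

lemma kr_cont (n : ℕ) : Continuous (kr n) := by
  unfold kr
  exact ((k1_cont n).comp Complex.continuous_re).mul ((k1_cont n).comp Complex.continuous_im)

lemma int_shift (g : ℝ → ℝ) : ∫ t in (0:ℝ)..1, g (t - 1 / 2) = ∫ t in (-(1 / 2) : ℝ)..(1 / 2), g t := by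
  rw [intervalIntegral.integral_comp_sub_right]
  norm_num

lemma intOn {f : ℂ → ℝ} (hf : Continuous f) : IntegrableOn f Q :=
  hf.continuousOn.integrableOn_compact isCompact_Q

lemma intOnC {f : ℂ → ℂ} (hf : Continuous f) : IntegrableOn f Q :=
  hf.continuousOn.integrableOn_compact isCompact_Q

/-- One directional move. -/
lemma move (hT : ∀ F : ℂ → ℝ, Continuous F → Per F → ∀ w, ∫ z in Q, F (z + w) = ∫ z in Q, F z)
    {f : ℂ → ℂ} (hf : ContDiff ℝ 1 f) (hp : Per f) (v : ℂ) (t : ℝ) :
    ∫ z in Q, ‖f (z + t * v) - f z‖ ≤ |t| * ∫ z in Q, ‖fderiv ℝ f z v‖ := by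
  have hdc : Continuous (fderiv ℝ f) := hf.continuous_fderiv one_ne_zero
  have hfc : Continuous f := hf.continuous
  have hD : Continuous (fun z => ‖fderiv ℝ f z v‖) := (hdc.clm_apply continuous_const).norm
  have hDp : Per (fun z => ‖fderiv ℝ f z v‖) := by
    intro z
    constructor
    · have : fderiv ℝ f (z + 1) = fderiv ℝ f z := by
        have h1 : (fun x => f (x + 1)) = f := funext fun x => (hp x).1
        rw [← fderiv_comp_add_right (f := f) (x := z) 1, h1]
      simp only [this]
    · have : fderiv ℝ f (z + I) = fderiv ℝ f z := by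
        have h1 : (fun x => f (x + I)) = f := funext fun x => (hp x).2
        rw [← fderiv_comp_add_right (f := f) (x := z) I, h1]
      simp only [this]
  -- pointwise
  have hpt : ∀ z, ‖f (z + t * v) - f z‖ ≤ ∫ s in (0:ℝ)..1, |t| * ‖fderiv ℝ f (z + (s * t) * v) v‖ := by
    intro z
    have hderiv : ∀ s : ℝ, HasDerivAt (fun s : ℝ => f (z + (s * t) * v))
        ((t : ℂ) * fderiv ℝ f (z + (s * t) * v) v) s := by
      intro s
      have h1 : HasDerivAt (fun s : ℝ => z + ((s : ℂ) * t) * v) ((t : ℂ) * v) s := by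
        have h0 : HasDerivAt (fun s : ℝ => (s : ℂ)) 1 s := Complex.ofRealCLM.hasDerivAt
        have := ((h0.mul_const (t : ℂ)).mul_const v).const_add z
        simpa using this
      have h2 : HasFDerivAt f (fderiv ℝ f (z + (s * t) * v)) (z + (s * t) * v) :=
        (hf.differentiable one_ne_zero _).hasFDerivAt
      have h3 := h2.comp_hasDerivAt s h1
      have h4 : fderiv ℝ f (z + (s * t) * v) ((t : ℂ) * v) =
          (t : ℂ) * fderiv ℝ f (z + (s * t) * v) v := by
        have := (fderiv ℝ f (z + (s * t) * v)).map_smul t v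
        simpa [Complex.real_smul] using this
      rw [h4] at h3
      exact h3
    have hcont : Continuous (fun s : ℝ => (t : ℂ) * fderiv ℝ f (z + (s * t) * v) v) := by
      have : Continuous (fun s : ℝ => z + ((s : ℂ) * t) * v) := by fun_prop
      exact continuous_const.mul ((hdc.comp this).clm_apply continuous_const)
    have hftc := intervalIntegral.integral_eq_sub_of_hasDerivAt (a := 0) (b := 1)
      (fun s _ => hderiv s) (hcont.intervalIntegrable _ _)
    have e1 : f (z + t * v) - f z =
        ∫ s in (0:ℝ)..1, (t : ℂ) * fderiv ℝ f (z + (s * t) * v) v := by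
      rw [hftc]; simp
    rw [e1]
    refine (intervalIntegral.norm_integral_le_integral_norm zero_le_one).trans (le_of_eq ?_)
    apply intervalIntegral.integral_congr
    intro s _
    simp
  have hcont2 : Continuous (fun p : ℂ × ℝ => |t| * ‖fderiv ℝ f (p.1 + (p.2 * t) * v) v‖) := by
    have h0 : Continuous (fun p : ℂ × ℝ => p.1 + ((p.2 : ℂ) * t) * v) := by fun_prop
    exact continuous_const.mul ((hdc.comp h0).clm_apply continuous_const).norm
  calc ∫ z in Q, ‖f (z + t * v) - f z‖
      ≤ ∫ z in Q, ∫ s in (0:ℝ)..1, |t| * ‖fderiv ℝ f (z + (s * t) * v) v‖ := by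
        apply setIntegral_mono (intOn ?_) (intOn ?_) hpt
        · have h0 : Continuous (fun z : ℂ => z + (t : ℂ) * v) := by fun_prop
          exact ((hfc.comp h0).sub hfc).norm
        · exact intervalIntegral.continuous_parametric_intervalIntegral_of_continuous'
            (f := fun z s => |t| * ‖fderiv ℝ f (z + (s * t) * v) v‖) hcont2 0 1
    _ = ∫ s in (0:ℝ)..1, ∫ z in Q, |t| * ‖fderiv ℝ f (z + (s * t) * v) v‖ := by
        simp only [intervalIntegral.integral_of_le zero_le_one]
        rw [integral_integral_swap]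
        apply Integrable.mono_measure (ν := (volume.restrict Q).prod (volume.restrict (Icc 0 1)))
        · rw [Measure.prod_restrict]
          exact hcont2.continuousOn.integrableOn_compact (isCompact_Q.prod isCompact_Icc)
        · exact Measure.prod_mono le_rfl (Measure.restrict_mono Ioc_subset_Icc_self le_rfl)
    _ = ∫ s in (0:ℝ)..1, |t| * ∫ z in Q, ‖fderiv ℝ f z v‖ := by
        apply intervalIntegral.integral_congr
        intro s _
        simp only
        rw [integral_const_mul, hT _ hD hDp ((s * t) * v)]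
    _ = |t| * ∫ z in Q, ‖fderiv ℝ f z v‖ := by simp

/-- Two moves. -/
lemma move2 (hT : ∀ F : ℂ → ℝ, Continuous F → Per F → ∀ w, ∫ z in Q, F (z + w) = ∫ z in Q, F z)
    {f : ℂ → ℂ} (hf : ContDiff ℝ 1 f) (hp : Per f) (u : ℂ) :
    ∫ z in Q, ‖f (z + u) - f z‖ ≤
      |u.re| * (∫ z in Q, ‖dx f z‖) + |u.im| * ∫ z in Q, ‖dy f z‖ := by
  have hfc : Continuous f := hf.continuous
  have h1 := move hT hf hp 1 u.re
  have h2 := move hT hf hp I u.im
  have hF : Continuous (fun z => ‖f (z + u.im * I) - f z‖) := by
    have h0 : Continuous (fun z : ℂ => z + (u.im : ℂ) * I) := by fun_prop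
    exact ((hfc.comp h0).sub hfc).norm
  have hFp : Per (fun z => ‖f (z + u.im * I) - f z‖) := by
    intro z
    constructor
    · have e1 : z + 1 + u.im * I = z + u.im * I + 1 := by ring
      simp only [e1, (hp _).1]
    · have e1 : z + I + u.im * I = z + u.im * I + I := by ring
      simp only [e1, (hp _).2]
  have h3 := hT _ hF hFp (u.re * 1)
  have hc1 : Continuous (fun z : ℂ => ‖f (z + u.re * 1) - f z‖) := by
    have h0 : Continuous (fun z : ℂ => z + (u.re : ℂ) * 1) := by fun_prop
    exact ((hfc.comp h0).sub hfc).norm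
  have hc2 : Continuous (fun z : ℂ => ‖f (z + u.re * 1 + u.im * I) - f (z + u.re * 1)‖) := by
    have h0 : Continuous (fun z : ℂ => z + (u.re : ℂ) * 1) := by fun_prop
    exact hF.comp h0
  calc ∫ z in Q, ‖f (z + u) - f z‖
      ≤ ∫ z in Q, (‖f (z + u.re * 1) - f z‖ + ‖f (z + u.re * 1 + u.im * I) - f (z + u.re * 1)‖) := by
        apply setIntegral_mono (intOn ?_) (intOn (hc1.add hc2)) ?_
        · have h0 : Continuous (fun z : ℂ => z + u) := by fun_prop
          exact ((hfc.comp h0).sub hfc).norm
        · intro z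
          have e1 : z + u = z + u.re * 1 + u.im * I := by
            rw [add_assoc, mul_one, Complex.re_add_im]
          have e2 : f (z + u) - f z = (f (z + u.re * 1) - f z) +
              (f (z + u.re * 1 + u.im * I) - f (z + u.re * 1)) := by
            rw [e1]; ring
          show ‖f (z + u) - f z‖ ≤ _
          rw [e2]
          exact norm_add_le _ _
    _ = (∫ z in Q, ‖f (z + u.re * 1) - f z‖) +
        ∫ z in Q, ‖f (z + u.re * 1 + u.im * I) - f (z + u.re * 1)‖ :=
        integral_add (intOn hc1) (intOn hc2)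
    _ ≤ |u.re| * (∫ z in Q, ‖dx f z‖) + |u.im| * ∫ z in Q, ‖dy f z‖ := by
        rw [h3]
        exact add_le_add h1 h2

/-- PACKET MO4. -/
theorem MO4 (hKER : S_KER) (hINT : S_INT) : S_MO4 := by
  obtain ⟨hk0, hkp, hke, hk1, hkt, -⟩ := hKER
  obtain ⟨-, -, hTC, hT, -⟩ := hINT
  refine ⟨fun n => ∫ t in (-(1 / 2) : ℝ)..(1 / 2), |t| * k1 n t, hkt, ?_⟩
  intro n f hf hp
  have hfc : Continuous f := hf.continuous
  have hkr0 : ∀ w, 0 ≤ kr n w := fun w => mul_nonneg (hk0 n _) (hk0 n _)
  have hkrc := kr_cont n
  have hsh : ∫ t in (0:ℝ)..1, k1 n (t - 1 / 2) = 1 := by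
    have hper : Function.Periodic (k1 n) 1 := fun t => hkp n t
    rw [int_shift]
    have h := hper.intervalIntegral_add_eq (-(1 / 2)) 0
    have e1 : (-(1 / 2) : ℝ) + 1 = 1 / 2 := by norm_num
    rw [e1, zero_add] at h
    rw [h, hk1]
  have hmass : ∫ w in Q, kr n (w - c0) = 1 := by
    have h := integral_Q_mul (fun t => k1 n (t - 1 / 2)) (fun t => k1 n (t - 1 / 2))
    rw [hsh, one_mul] at h
    rw [← h]
    rfl
  -- the formula for the convolution
  have hMo : ∀ z, Mo n f z = ∫ w in Q, (kr n (w - c0) : ℂ) * f (z + (w - c0)) := by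
    intro z
    have hg : Continuous (fun w : ℂ => (kr n (z - w) : ℂ) * f w) := by
      have h0 : Continuous (fun w : ℂ => z - w) := by fun_prop
      exact (Complex.continuous_ofReal.comp (hkrc.comp h0)).mul hfc
    have hgp : Per (fun w : ℂ => (kr n (z - w) : ℂ) * f w) := by
      intro w
      have hk1' : ∀ t, k1 n (t - 1) = k1 n t := by
        intro t
        have := hkp n (t - 1)
        rw [sub_add_cancel] at this
        exact this.symm
      constructor
      · have : kr n (z - (w + 1)) = kr n (z - w) := by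
          simp only [kr, Complex.sub_re, Complex.add_re, Complex.one_re, Complex.sub_im,
            Complex.add_im, Complex.one_im, add_zero]
          rw [← sub_sub, hk1']
        simp only [this, (hp w).1]
      · have : kr n (z - (w + I)) = kr n (z - w) := by
          simp only [kr, Complex.sub_re, Complex.add_re, Complex.I_re, Complex.sub_im,
            Complex.add_im, Complex.I_im, add_zero]
          rw [← sub_sub z.im, hk1']
        simp only [this, (hp w).2]
    have h := hTC _ hg hgp (z - c0)
    show ∫ w in Q, (kr n (z - w) : ℂ) * f w = _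
    rw [← h]
    apply integral_congr_ae
    filter_upwards with w
    have e1 : z - (w + (z - c0)) = -(w - c0) := by ring
    have e2 : w + (z - c0) = z + (w - c0) := by ring
    have e3 : kr n (-(w - c0)) = kr n (w - c0) := by
      simp only [kr, Complex.neg_re, Complex.neg_im, hke]
    rw [e1, e2, e3]
  have hkc : Continuous (fun w : ℂ => kr n (w - c0)) := hkrc.comp (continuous_id.sub continuous_const)
  have hdiff : ∀ z, Mo n f z - f z =
      ∫ w in Q, (kr n (w - c0) : ℂ) * (f (z + (w - c0)) - f z) := by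
    intro z
    have hc1 : Continuous (fun w : ℂ => (kr n (w - c0) : ℂ) * f (z + (w - c0))) := by
      have h0 : Continuous (fun w : ℂ => z + (w - c0)) := by fun_prop
      exact (Complex.continuous_ofReal.comp hkc).mul (hfc.comp h0)
    have hc2 : Continuous (fun w : ℂ => (kr n (w - c0) : ℂ) * f z) :=
      (Complex.continuous_ofReal.comp hkc).mul continuous_const
    have h2 : ∫ w in Q, (kr n (w - c0) : ℂ) * f z = f z := by
      have h3 : ∫ w in Q, (kr n (w - c0) : ℂ) = ((∫ w in Q, kr n (w - c0) : ℝ) : ℂ) :=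
        integral_ofReal
      rw [integral_mul_const, h3, hmass]
      simp
    have h4 : (fun w : ℂ => (kr n (w - c0) : ℂ) * (f (z + (w - c0)) - f z)) =
        fun w => (kr n (w - c0) : ℂ) * f (z + (w - c0)) - (kr n (w - c0) : ℂ) * f z :=
      funext fun w => mul_sub _ _ _
    rw [hMo z, h4, integral_sub (intOnC hc1) (intOnC hc2), h2]
  have hpt : ∀ z, ‖Mo n f z - f z‖ ≤ ∫ w in Q, kr n (w - c0) * ‖f (z + (w - c0)) - f z‖ := by
    intro z
    rw [hdiff z]
    refine (norm_integral_le_integral_norm _).trans (le_of_eq ?_)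
    apply integral_congr_ae
    filter_upwards with w
    rw [norm_mul, Complex.norm_real, Real.norm_of_nonneg (hkr0 _)]
  have hcont2 : Continuous (fun p : ℂ × ℂ => kr n (p.2 - c0) * ‖f (p.1 + (p.2 - c0)) - f p.1‖) := by
    have h0 : Continuous (fun p : ℂ × ℂ => p.1 + (p.2 - c0)) := by fun_prop
    exact (hkc.comp continuous_snd).mul ((hfc.comp h0).sub (hfc.comp continuous_fst)).norm
  have hMoc : Continuous (fun z => Mo n f z - f z) := by
    have : (fun z => Mo n f z - f z) =
        fun z => ∫ w in Q, (kr n (w - c0) : ℂ) * (f (z + (w - c0)) - f z) := funext hdiff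
    rw [this]
    apply continuous_parametric_integral_of_continuous ?_ isCompact_Q
    have h0 : Continuous (fun p : ℂ × ℂ => p.1 + (p.2 - c0)) := by fun_prop
    exact (Complex.continuous_ofReal.comp (hkc.comp continuous_snd)).mul
      ((hfc.comp h0).sub (hfc.comp continuous_fst))
  have hdx : Continuous (fun z => ‖dx f z‖) :=
    ((hf.continuous_fderiv one_ne_zero).clm_apply continuous_const).norm
  have hdy : Continuous (fun z => ‖dy f z‖) :=
    ((hf.continuous_fderiv one_ne_zero).clm_apply continuous_const).norm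
  have hre : ∫ w in Q, kr n (w - c0) * |(w - c0).re| =
      ∫ t in (-(1 / 2) : ℝ)..(1 / 2), |t| * k1 n t := by
    have h := integral_Q_mul (fun t => |t - 1 / 2| * k1 n (t - 1 / 2)) (fun t => k1 n (t - 1 / 2))
    rw [hsh, mul_one, int_shift (fun t => |t| * k1 n t)] at h
    rw [← h]
    apply integral_congr_ae
    filter_upwards with w
    simp only [kr, c0, Complex.sub_re, Complex.sub_im]
    ring
  have him : ∫ w in Q, kr n (w - c0) * |(w - c0).im| =
      ∫ t in (-(1 / 2) : ℝ)..(1 / 2), |t| * k1 n t := by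
    have h := integral_Q_mul (fun t => k1 n (t - 1 / 2)) (fun t => |t - 1 / 2| * k1 n (t - 1 / 2))
    rw [hsh, one_mul, int_shift (fun t => |t| * k1 n t)] at h
    rw [← h]
    apply integral_congr_ae
    filter_upwards with w
    simp only [kr, c0, Complex.sub_re, Complex.sub_im]
    ring
  have hcr : Continuous (fun w : ℂ => kr n (w - c0) * |(w - c0).re|) :=
    hkc.mul (Complex.continuous_re.comp (continuous_id.sub continuous_const)).abs
  have hci : Continuous (fun w : ℂ => kr n (w - c0) * |(w - c0).im|) :=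
    hkc.mul (Complex.continuous_im.comp (continuous_id.sub continuous_const)).abs
  set A := ∫ z in Q, ‖dx f z‖ with hA
  set B := ∫ z in Q, ‖dy f z‖ with hB
  have hsumc : Continuous (fun w : ℂ =>
      kr n (w - c0) * |(w - c0).re| * A + kr n (w - c0) * |(w - c0).im| * B) :=
    (hcr.mul continuous_const).add (hci.mul continuous_const)
  have hintc : Continuous (fun w : ℂ => ∫ z in Q, kr n (w - c0) * ‖f (z + (w - c0)) - f z‖) := by
    have h0 : Continuous (fun p : ℂ × ℂ => p.2 + (p.1 - c0)) := by fun_prop
    have h5 : Continuous (fun p : ℂ × ℂ => kr n (p.1 - c0)) := hkc.comp continuous_fst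
    have h6 : Continuous (fun p : ℂ × ℂ => ‖f (p.2 + (p.1 - c0)) - f p.2‖) :=
      ((hfc.comp h0).sub (hfc.comp continuous_snd)).norm
    exact continuous_parametric_integral_of_continuous
      (f := fun w z => kr n (w - c0) * ‖f (z + (w - c0)) - f z‖) (h5.mul h6) isCompact_Q
  calc ∫ z in Q, ‖Mo n f z - f z‖
      ≤ ∫ z in Q, ∫ w in Q, kr n (w - c0) * ‖f (z + (w - c0)) - f z‖ := by
        apply setIntegral_mono (intOn hMoc.norm) (intOn ?_) hpt
        exact continuous_parametric_integral_of_continuous hcont2 isCompact_Q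
    _ = ∫ w in Q, ∫ z in Q, kr n (w - c0) * ‖f (z + (w - c0)) - f z‖ := by
        rw [integral_integral_swap]
        rw [Measure.prod_restrict]
        exact hcont2.continuousOn.integrableOn_compact (isCompact_Q.prod isCompact_Q)
    _ ≤ ∫ w in Q, (kr n (w - c0) * |(w - c0).re| * A + kr n (w - c0) * |(w - c0).im| * B) := by
        apply setIntegral_mono (intOn hintc) (intOn hsumc)
        · intro w
          show ∫ z in Q, kr n (w - c0) * ‖f (z + (w - c0)) - f z‖ ≤
            kr n (w - c0) * |(w - c0).re| * A + kr n (w - c0) * |(w - c0).im| * B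
          rw [integral_const_mul]
          have h := move2 hT hf hp (w - c0)
          have h' := mul_le_mul_of_nonneg_left h (hkr0 (w - c0))
          refine h'.trans (le_of_eq ?_)
          ring
    _ = (∫ t in (-(1 / 2) : ℝ)..(1 / 2), |t| * k1 n t) *
        ∫ z in Q, (‖dx f z‖ + ‖dy f z‖) := by
        have i1 : IntegrableOn (fun w : ℂ => kr n (w - c0) * |(w - c0).re| * A) Q :=
          intOn (hcr.mul continuous_const)
        have i2 : IntegrableOn (fun w : ℂ => kr n (w - c0) * |(w - c0).im| * B) Q :=
          intOn (hci.mul continuous_const)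
        rw [integral_add i1 i2,
          integral_mul_const, integral_mul_const, hre, him,
          integral_add (intOn hdx) (intOn hdy)]
        ring

end Pool.Agent.Helper7.IW
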